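import Pool.Agent.helper99.ZR.Spec

set_option autoImplicit false

/-! # ZR (MP_3c0a64_an), row GAU: content zero implies measure zero -/

namespace Pool.Agent.ZR

open Finset
open scoped ENNReal

theorem GAU_log3 : 1 < Real.log 3 := by
  rw [Real.lt_log_iff_exp_lt (by norm_num)]
  exact lt_trans Real.exp_one_lt_d9 (by norm_num)

theorem GAU_eps (C₀ : ℝ) (n : ℕ) : ∃ ε : ℝ≥0∞, 0 < ε ∧ ε ≤ (n : ℝ≥0∞)⁻¹ ∧ ∀ j < n, ε ≤ psE C₀ j := by
  have h : ∀ m : ℕ, ∃ ε : ℝ≥0∞, 0 < ε ∧ ∀ j < m, ε ≤ psE C₀ j := by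
    intro m
    induction m with
    | zero => exact ⟨1, one_pos, fun j hj => absurd hj (Nat.not_lt_zero j)⟩
    | succ m ih =>
      obtain ⟨ε, h1, h2⟩ := ih
      refine ⟨min ε (psE C₀ m), lt_min h1 ?_, fun j hj => ?_⟩
      · unfold psE psi
        rw [ENNReal.ofReal_pos]
        exact Real.exp_pos _
      · rcases Nat.lt_succ_iff_lt_or_eq.1 hj with h | h
        · exact le_trans (min_le_left _ _) (h2 j h)
        · rw [h]
          exact min_le_right _ _
  obtain ⟨ε, h1, h2⟩ := h n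
  refine ⟨min ε (n : ℝ≥0∞)⁻¹, lt_min h1 ?_, min_le_right _ _, fun j hj =>
    le_trans (min_le_left _ _) (h2 j hj)⟩
  exact ENNReal.inv_pos.2 (ENNReal.natCast_ne_top n)

/-- the gauge at the diameter of a cell -/
theorem GAU_gz (C₀ C lam : ℝ) (j : ℕ) (hC₀ : 0 < C₀) (hC : C₀ < C) (hlam : 0 < lam) (hj : 1 ≤ j)
    (h : Real.log lam ≤ j * (Real.log 3 - 1)) :
    gz C (ENNReal.ofReal (lam / 3 ^ j)) ≤ psE C₀ j := by
  unfold gz psE psi
  refine ENNReal.ofReal_le_ofReal (Real.exp_le_exp.2 (neg_le_neg ?_))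
  rw [ENNReal.toReal_ofReal (by positivity)]
  have h1 : Real.log (1 / (lam / 3 ^ j)) = j * Real.log 3 - Real.log lam := by
    rw [one_div_div, Real.log_div (by positivity) hlam.ne', Real.log_pow]
  have hj1 : (1 : ℝ) ≤ j := by exact_mod_cast hj
  have h2 : (j : ℝ) ≤ j * Real.log 3 - Real.log lam := by nlinarith
  rw [h1]
  have h3 : 0 ≤ Real.log j := Real.log_nonneg hj1
  have h4 : Real.log j ≤ Real.log (j * Real.log 3 - Real.log lam) :=
    Real.log_le_log (by linarith) h2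
  have h5 : Real.log j ^ 3 ≤ Real.log (j * Real.log 3 - Real.log lam) ^ 3 :=
    pow_le_pow_left₀ h3 h4 3
  have h6 : 0 ≤ Real.log j ^ 3 := by positivity
  nlinarith

theorem GAU : GAU_stmt := by
  intro C₀ C lam hC₀ hC hlam A hA
  choose ε hε0 hεn hεj using GAU_eps C₀
  have hex : ∀ n : ℕ, ∃ B : Set (ℕ × ℤ), Cov B {s | lam * (1 + s) ∈ A} ∧ cst (psE C₀) B < ε n := by
    intro n
    have h1 : cont (psE C₀) {s | lam * (1 + s) ∈ A} < ε n := by
      rw [hA]
      exact hε0 n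
    unfold cont at h1
    rw [iInf_lt_iff] at h1
    obtain ⟨B, hB⟩ := h1
    rw [iInf_lt_iff] at hB
    obtain ⟨h2, h3⟩ := hB
    exact ⟨B, h2, h3⟩
  choose B hBc hBε using hex
  -- the level of the cells
  have hlev : ∀ n : ℕ, ∀ c ∈ B n, n ≤ c.1 := by
    intro n c hc
    by_contra hcon
    have h1 : psE C₀ c.1 ≤ cst (psE C₀) (B n) := by
      unfold cst
      exact ENNReal.le_tsum (f := fun c : B n => psE C₀ (c : ℕ × ℤ).1) ⟨c, hc⟩
    have h2 := hεj n c.1 (by omega)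
    exact absurd (lt_of_le_of_lt (le_trans h2 h1) (hBε n)) (lt_irrefl _)
  have hdiam : ∀ c : ℕ × ℤ, Metric.ediam (Set.Ico (lam * (1 + c.2 / 3 ^ c.1))
      (lam * (1 + (c.2 + 1) / 3 ^ c.1))) = ENNReal.ofReal (lam / 3 ^ c.1) := by
    intro c
    rw [Real.ediam_Ico]
    congr 1
    ring
  -- the bound
  have hle : MeasureTheory.Measure.mkMetric (gz C) A ≤ Filter.liminf (fun n : ℕ =>
      ∑' i : B n, gz C (Metric.ediam (Set.Ico (lam * (1 + (i : ℕ × ℤ).2 / 3 ^ (i : ℕ × ℤ).1))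
        (lam * (1 + ((i : ℕ × ℤ).2 + 1) / 3 ^ (i : ℕ × ℤ).1))))) Filter.atTop := by
    refine MeasureTheory.Measure.mkMetric_le_liminf_tsum (β := ℕ) (ι := fun n => ↥(B n)) A
      (fun n => ENNReal.ofReal (lam / 3 ^ n)) ?_ (fun n i =>
      Set.Ico (lam * (1 + (i : ℕ × ℤ).2 / 3 ^ (i : ℕ × ℤ).1))
        (lam * (1 + ((i : ℕ × ℤ).2 + 1) / 3 ^ (i : ℕ × ℤ).1))) ?_ ?_ (gz C)
    · have h1 : Filter.Tendsto (fun n : ℕ => lam / (3 : ℝ) ^ n) Filter.atTop (nhds 0) := by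
        have h2 := (tendsto_pow_atTop_nhds_zero_of_lt_one (r := (1 / 3 : ℝ)) (by norm_num)
          (by norm_num)).const_mul lam
        rw [mul_zero] at h2
        refine h2.congr fun n => ?_
        rw [div_pow, one_pow]
        ring
      have h3 := ENNReal.tendsto_ofReal h1
      rwa [ENNReal.ofReal_zero] at h3
    · refine Filter.Eventually.of_forall fun n i => ?_
      rw [hdiam]
      refine ENNReal.ofReal_le_ofReal ?_
      exact div_le_div_of_nonneg_left hlam.le (by positivity)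
        (pow_le_pow_right₀ (by norm_num) (hlev n i i.2))
    · refine Filter.Eventually.of_forall fun n a ha => ?_
      have hmem : a / lam - 1 ∈ {s | lam * (1 + s) ∈ A} := by
        show lam * (1 + (a / lam - 1)) ∈ A
        have : lam * (1 + (a / lam - 1)) = a := by field_simp; ring
        rwa [this]
      obtain ⟨c, hc, hfl⟩ := hBc n _ hmem
      rw [Set.mem_iUnion]
      refine ⟨⟨c, hc⟩, ?_⟩
      rw [Int.floor_eq_iff] at hfl
      obtain ⟨f1, f2⟩ := hfl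
      have h3 : (0 : ℝ) < 3 ^ c.1 := by positivity
      have hal : a = lam * (1 + (a / lam - 1)) := by field_simp; ring
      constructor
      · show lam * (1 + (c.2 : ℝ) / 3 ^ c.1) ≤ a
        rw [hal]
        refine mul_le_mul_of_nonneg_left ?_ hlam.le
        have : (c.2 : ℝ) / 3 ^ c.1 ≤ a / lam - 1 := by
          rw [div_le_iff₀ h3]
          linarith [mul_comm ((3 : ℝ) ^ c.1) (a / lam - 1)]
        linarith
      · show a < lam * (1 + ((c.2 : ℝ) + 1) / 3 ^ c.1)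
        rw [hal]
        refine mul_lt_mul_of_pos_left ?_ hlam
        have : a / lam - 1 < ((c.2 : ℝ) + 1) / 3 ^ c.1 := by
          rw [lt_div_iff₀ h3]
          linarith [mul_comm ((3 : ℝ) ^ c.1) (a / lam - 1)]
        linarith
  obtain ⟨J, hJ⟩ : ∃ J : ℕ, Real.log lam / (Real.log 3 - 1) ≤ J := exists_nat_ge _
  have hl3 : 0 < Real.log 3 - 1 := by linarith [GAU_log3]
  have hev : ∀ᶠ n : ℕ in Filter.atTop,
      ∑' i : B n, gz C (Metric.ediam (Set.Ico (lam * (1 + (i : ℕ × ℤ).2 / 3 ^ (i : ℕ × ℤ).1))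
        (lam * (1 + ((i : ℕ × ℤ).2 + 1) / 3 ^ (i : ℕ × ℤ).1)))) ≤ (n : ℝ≥0∞)⁻¹ := by
    filter_upwards [Filter.eventually_ge_atTop (max 1 J)] with n hn
    refine le_trans (ENNReal.tsum_le_tsum (g := fun c : B n => psE C₀ (c : ℕ × ℤ).1) fun i => ?_)
      (le_trans (hBε n).le (hεn n))
    rw [hdiam]
    have h1 := hlev n i i.2
    refine GAU_gz C₀ C lam _ hC₀ hC hlam (by omega) ?_
    have h2 : (J : ℝ) ≤ ((i : ℕ × ℤ).1 : ℝ) := by
      have : J ≤ (i : ℕ × ℤ).1 := by omega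
      exact_mod_cast this
    rw [div_le_iff₀ hl3] at hJ
    exact le_trans hJ (mul_le_mul_of_nonneg_right h2 hl3.le)
  have hlim : Filter.liminf (fun n : ℕ =>
      ∑' i : B n, gz C (Metric.ediam (Set.Ico (lam * (1 + (i : ℕ × ℤ).2 / 3 ^ (i : ℕ × ℤ).1))
        (lam * (1 + ((i : ℕ × ℤ).2 + 1) / 3 ^ (i : ℕ × ℤ).1))))) Filter.atTop ≤ 0 := by
    refine le_trans (Filter.liminf_le_liminf hev) ?_
    rw [ENNReal.tendsto_inv_nat_nhds_zero.liminf_eq]
  exact le_antisymm (le_trans hle hlim) bot_le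

end Pool.Agent.ZR
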