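import Pool.Agent.helper99.ZR.Spec

set_option autoImplicit false

/-! # ZR (MP_3c0a64_an), row TEL -/

namespace Pool.Agent.ZR

open Finset
open Pool.Agent.helper32.Cant
open Pool.Agent.GA (nrm chi ch St sg flp Psi rc ph pot rpot far nc gf ncs gfs good mj om pick pat et kap mult)
open scoped ENNReal

/-- the density -/
noncomputable def TEL_a {n : ℕ} {X : Type} [Fintype X] (c : Fam n X) (k : ℕ) (w : Word n)
    (t : ZMod (3 ^ (2 * n))) : ℝ := FI c (3 ^ (2 * n - k)) w t / 3 ^ (2 * n - k)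

theorem TEL_card (n : ℕ) : (Finset.univ : Finset (Word n)).card = 2 ^ n := by
  simp [Finset.card_univ]

theorem TEL (hKST : KST_stmt) (hSP3 : SP3_stmt) (hTOT : TOT_stmt) : TEL_stmt := by
  intro σ M hσ hM
  obtain ⟨k', hk'⟩ := hKST σ M hσ hM
  refine ⟨max k' 3, ?_⟩
  intro n k₁ hk1 hkn X _ c hWt hWin G hG
  set k₀ := max k' 3 with hk₀
  have hk03 : 3 ≤ k₀ := le_max_right _ _
  have hk1n : k₁ ≤ n := by omega
  have h3n : (0 : ℝ) < 3 ^ n := by positivity
  have hWpos : 0 < Wt c := lt_of_lt_of_le (by positivity) hWt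
  obtain ⟨-, -, -, -, hT⟩ := hTOT n X c
  set A : ℝ := 2 ^ n * Wt c with hA
  have hA0 : 0 < A := by positivity
  -- one step
  have hstep : ∀ k, k₀ ≤ k → k < k₁ →
      ∑ w : Word n, ∑ t, |TEL_a c k w t - TEL_a c (k + 1) w t| ≤ 1 / (k : ℝ) ^ 2 * A := by
    intro k hk hkk
    have hclog : Nat.clog 3 k ≤ Nat.clog 3 k₁ := Nat.clog_mono_right 3 (by omega)
    have h1 := hk' k (le_trans (le_max_left _ _) hk) n (by omega) X c hWt hWin
    have h2 := hSP3 n X c k (by omega)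
    have hL : (0 : ℝ) < 3 ^ (2 * n - (k + 1)) := by positivity
    refine le_trans h2 ?_
    rw [div_le_iff₀ hL]
    refine le_trans h1 (le_of_eq ?_)
    rw [hA]
    ring
  -- telescoping
  have htel : ∀ k, k₀ ≤ k → k ≤ k₁ →
      ∑ w : Word n, ∑ t, |TEL_a c k₀ w t - TEL_a c k w t| ≤
        (1 / ((k₀ : ℝ) - 1) - 1 / ((k : ℝ) - 1)) * A := by
    intro k hk
    induction k, hk using Nat.le_induction with
    | base =>
      intro _
      simp
    | succ k hk ih =>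
      intro hk2
      have h1 := ih (by omega)
      have h2 := hstep k hk (by omega)
      have h3 : ∑ w : Word n, ∑ t, |TEL_a c k₀ w t - TEL_a c (k + 1) w t| ≤
          ∑ w : Word n, ∑ t, |TEL_a c k₀ w t - TEL_a c k w t| +
          ∑ w : Word n, ∑ t, |TEL_a c k w t - TEL_a c (k + 1) w t| := by
        rw [← sum_add_distrib]
        refine sum_le_sum fun w _ => ?_
        rw [← sum_add_distrib]
        exact sum_le_sum fun t _ => abs_sub_le _ _ _
      have hk3 : (3 : ℝ) ≤ k := by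
        have : 3 ≤ k := le_trans hk03 hk
        exact_mod_cast this
      have h4 : 1 / (k : ℝ) ^ 2 ≤ 1 / ((k : ℝ) - 1) - 1 / (k : ℝ) := by
        rw [div_sub_div _ _ (by linarith) (by linarith), div_le_div_iff₀ (by positivity)
          (mul_pos (by linarith) (by linarith))]
        nlinarith
      have h5 : ((k + 1 : ℕ) : ℝ) - 1 = k := by push_cast; ring
      rw [h5]
      have h6 : 1 / (k : ℝ) ^ 2 * A ≤ (1 / ((k : ℝ) - 1) - 1 / (k : ℝ)) * A :=
        mul_le_mul_of_nonneg_right h4 hA0.le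
      calc ∑ w : Word n, ∑ t, |TEL_a c k₀ w t - TEL_a c (k + 1) w t|
          ≤ (1 / ((k₀ : ℝ) - 1) - 1 / ((k : ℝ) - 1)) * A + 1 / (k : ℝ) ^ 2 * A := by linarith
        _ ≤ (1 / ((k₀ : ℝ) - 1) - 1 / ((k : ℝ) - 1)) * A +
            (1 / ((k : ℝ) - 1) - 1 / (k : ℝ)) * A := by linarith
        _ = (1 / ((k₀ : ℝ) - 1) - 1 / (k : ℝ)) * A := by ring
  have hD : ∑ w : Word n, ∑ t, |TEL_a c k₀ w t - TEL_a c k₁ w t| ≤ A / 2 := by
    refine le_trans (htel k₁ hk1 le_rfl) ?_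
    have h1 : (3 : ℝ) ≤ k₀ := by exact_mod_cast hk03
    have h2 : (3 : ℝ) ≤ k₁ := by
      have : 3 ≤ k₁ := by omega
      exact_mod_cast this
    have h3 : 1 / ((k₀ : ℝ) - 1) ≤ 1 / 2 := one_div_le_one_div_of_le (by norm_num) (by linarith)
    have h4 : 0 < 1 / ((k₁ : ℝ) - 1) := one_div_pos.2 (by linarith)
    nlinarith
  -- the sum over the finest level
  have hpow : ∀ k : ℕ, (3 : ℕ) ^ (2 * n - k) ≤ 3 ^ (2 * n) := fun k =>
    Nat.pow_le_pow_right (by norm_num) (Nat.sub_le _ _)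
  have hfull : ∑ w : Word n, ∑ t, TEL_a c k₁ w t = A := by
    have h1 : ∀ w : Word n, ∑ t, TEL_a c k₁ w t = Wt c := by
      intro w
      unfold TEL_a
      rw [← sum_div, (hT _ (hpow k₁) w).1]
      push_cast
      have : (3 : ℝ) ^ (2 * n - k₁) ≠ 0 := by positivity
      field_simp
    rw [sum_congr rfl fun w _ => h1 w, sum_const, TEL_card, nsmul_eq_mul]
    push_cast
    rfl
  have hzero : ∀ (w : Word n) (t : ZMod (3 ^ (2 * n))), t ∉ G → TEL_a c k₁ w t = 0 := by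
    intro w t ht
    unfold TEL_a FI
    rw [sum_eq_zero, zero_div]
    intro z _
    have h1 : ¬ (um c (0, w) z - t).val < 3 ^ (2 * n - k₁) := fun h => ht (hG t ⟨w, z, h⟩)
    simp [ind, h1]
  have hrestr : ∑ w : Word n, ∑ t, TEL_a c k₁ w t = ∑ w : Word n, ∑ t ∈ G, TEL_a c k₁ w t := by
    refine sum_congr rfl fun w _ => ?_
    refine (sum_subset (subset_univ G) fun t _ ht => hzero w t ht).symm
  have hL0 : (0 : ℝ) < 3 ^ (2 * n - k₀) := by positivity
  have hcoarse : ∑ w : Word n, ∑ t ∈ G, TEL_a c k₀ w t ≤ G.card * (A / 3 ^ (2 * n - k₀)) := by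
    have h1 : ∀ w : Word n, ∑ t ∈ G, TEL_a c k₀ w t ≤ G.card * (Wt c / 3 ^ (2 * n - k₀)) := by
      intro w
      rw [← nsmul_eq_mul, ← sum_const]
      refine sum_le_sum fun t _ => ?_
      unfold TEL_a
      exact div_le_div_of_nonneg_right ((hT _ (hpow k₀) w).2 t).2 hL0.le
    refine le_trans (sum_le_sum fun w _ => h1 w) (le_of_eq ?_)
    rw [sum_const, TEL_card, nsmul_eq_mul, hA]
    push_cast
    ring
  have hcomp : ∑ w : Word n, ∑ t ∈ G, TEL_a c k₁ w t ≤ ∑ w : Word n, ∑ t ∈ G, TEL_a c k₀ w t +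
      ∑ w : Word n, ∑ t, |TEL_a c k₀ w t - TEL_a c k₁ w t| := by
    rw [← sum_add_distrib]
    refine sum_le_sum fun w _ => ?_
    have h1 : ∑ t ∈ G, |TEL_a c k₀ w t - TEL_a c k₁ w t| ≤
        ∑ t, |TEL_a c k₀ w t - TEL_a c k₁ w t| :=
      sum_le_sum_of_subset_of_nonneg (subset_univ G) fun _ _ _ => abs_nonneg _
    have h2 : ∑ t ∈ G, TEL_a c k₁ w t ≤ ∑ t ∈ G, (TEL_a c k₀ w t +
        |TEL_a c k₀ w t - TEL_a c k₁ w t|) := by
      refine sum_le_sum fun t _ => ?_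
      have := neg_abs_le (TEL_a c k₀ w t - TEL_a c k₁ w t)
      linarith
    rw [sum_add_distrib] at h2
    linarith
  have hmain : A ≤ G.card * (A / 3 ^ (2 * n - k₀)) + A / 2 := by
    calc A = ∑ w : Word n, ∑ t ∈ G, TEL_a c k₁ w t := by rw [← hrestr, hfull]
      _ ≤ _ := by linarith
  have h7 : A / 2 * 3 ^ (2 * n - k₀) ≤ G.card * A := by
    have h8 : A / 2 ≤ G.card * (A / 3 ^ (2 * n - k₀)) := by linarith
    have h9 : (G.card : ℝ) * (A / 3 ^ (2 * n - k₀)) = G.card * A / 3 ^ (2 * n - k₀) := by ring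
    rwa [h9, le_div_iff₀ hL0] at h8
  have h10 : A * ((3 : ℝ) ^ (2 * n - k₀) / 2) ≤ A * G.card := by linarith
  exact le_of_mul_le_mul_left h10 hA0

end Pool.Agent.ZR
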